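import Pool.Agent.LAT.StmtsC

/-! Squad LAT, row PHF. -/

set_option autoImplicit false

namespace Pool.Agent.LAT.H27

open Matrix

theorem rows_zero {m : ℕ} : rows (0 : Matrix (Fin m) (Fin m) ℤ) = ⊥ := by
  unfold rows
  rw [Submodule.span_eq_bot]
  rintro _ ⟨i, rfl⟩
  rfl

theorem phf (hBnd : BndStmt) (hHne : HneStmt) (hHnd : HndStmt) (hPhs : PhsStmt) : PhfStmt := by
  intro m L D
  choose g hg1 hg2 using hHne m
  have hfin : {B : Matrix (Fin m) (Fin m) ℤ | PP L D B}.Finite := by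
    have h := Set.finite_Icc (fun (_ _ : Fin m) => -((m : ℤ) * (D : ℤ) ^ m))
      (fun (_ _ : Fin m) => (m : ℤ) * (D : ℤ) ^ m)
    refine Set.Finite.subset h fun B hB => ?_
    have h2 := (hBnd m L D B hB).2
    constructor
    · intro i j
      exact (abs_le.1 (h2 i j)).1
    · intro i j
      exact (abs_le.1 (h2 i j)).2
  refine Set.Finite.subset ((Set.finite_singleton (⊥ : Submodule ℤ (Fin m → ℤ))).union
    (hfin.image fun B => rows B)) ?_
  rintro M ⟨hM1, hM2⟩
  by_cases hb : M = ⊥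
  · exact Or.inl hb
  · right
    refine ⟨g M, ⟨hg1 M, ?_, ?_, ?_⟩, hg2 M⟩
    · intro h0
      have := hg2 M
      rw [h0, rows_zero] at this
      exact hb this.symm
    · rw [hg2]
      exact hM1
    · rw [← (hHnd m (g M) (hg1 M)).1, ← (hHnd m (g M) (hg1 M)).2, hg2]
      exact ((hPhs m D).2.2.1 M).1 hM2

end Pool.Agent.LAT.H27
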